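import Pool.Agent.MP_e848aa_gt.Main

/-! Closed images of metalindelof spaces: targets with many P-points and small Lindelof number. -/

open Set Topology Cardinal

namespace Pool.Agent.MP_e848aa_gt.Extra.PPointsBelowAlephOmega

open Pool.Agent.MP_e848aa_gt

universe u v

/-- Let `f : X → Y` be a closed mapping of a metalindelof space such that every open cover of `Y`
has a subcover with fewer than aleph omega members.  Let `E` be the set of points `y` which are
not P-points of `Y` and for which the part of the fibre outside its interior is infinite.  If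
every open cover of `Y` has at most aleph one members covering `E` (for instance if `Y` is a
P-space), then `Y` is metalindelof. -/
theorem result {X : Type u} {Y : Type v} [TopologicalSpace X] [TopologicalSpace Y]
    (hX : Metalindelof X) (f : X → Y) (hf : ClosedMapping f)
    (hL : ∀ 𝒰 : Set (Set Y), OpenCover 𝒰 →
      ∃ 𝒰' ⊆ 𝒰, #𝒰' < ℵ_ Ordinal.omega0 ∧ OpenCover 𝒰')
    (hE : LindelofNumberLeAlephOneIn
      {y : Y | ¬ IsPPoint y ∧ (f ⁻¹' {y} \ interior (f ⁻¹' {y})).Infinite}) :
    Metalindelof Y := by
  refine metalindelof_of_exceptional hX hf _ hE ?_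
  intro 𝒰 h𝒰 H hH hHE
  obtain ⟨𝒰', hsub, hcard, hcov⟩ := hL 𝒰 h𝒰
  have hc : H ⊆ ⋃₀ 𝒰' := by rw [hcov.2]; exact subset_univ _
  have h1 : Coverable 𝒰' H := by
    refine coverable_mixed hX hf 𝒰' hcov.1 H hH hc ?_ ?_
    · refine coverable_of_coverStat 𝒰' hcov.1 H hH hc ?_
      exact coverStat_of_lt_aleph_omega hX hf _ (by rw [Cardinal.card_ord]; exact hcard)
    · intro y hy
      by_cases hP : IsPPoint y
      · exact Or.inl hP
      · right
        by_contra hcon
        exact hHE y hy ⟨hP, hcon⟩
  exact h1.mono_refines fun V hV => ⟨V, hsub hV, subset_rfl⟩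

end Pool.Agent.MP_e848aa_gt.Extra.PPointsBelowAlephOmega
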