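import Pool.Agent.MP_e848aa_gt.Main

/-! Closed images of metalindelof spaces: countably metacompact targets with many P-points. -/

open Set Topology Cardinal

namespace Pool.Agent.MP_e848aa_gt.Extra.PPointsCountablyMetacompact

open Pool.Agent.MP_e848aa_gt

universe u v

/-- Let `f : X → Y` be a closed mapping of a metalindelof space onto a countably metacompact
space.  Let `E` be the set of points `y` which are not P-points of `Y` and for which the part of
the fibre outside its interior is infinite.  If every open cover of `Y` has at most aleph one
members covering `E` (for instance if `Y` is a P-space), then `Y` is metalindelof. -/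
theorem result {X : Type u} {Y : Type v} [TopologicalSpace X] [TopologicalSpace Y]
    (hX : Metalindelof X) (f : X → Y) (hf : ClosedMapping f) (hY : CountablyMetacompact Y)
    (hE : LindelofNumberLeAlephOneIn
      {y : Y | ¬ IsPPoint y ∧ (f ⁻¹' {y} \ interior (f ⁻¹' {y})).Infinite}) :
    Metalindelof Y := by
  refine metalindelof_of_exceptional hX hf _ hE ?_
  intro 𝒰 h𝒰 H hH hHE
  have hc : H ⊆ ⋃₀ 𝒰 := by rw [h𝒰.2]; exact subset_univ _
  refine coverable_mixed hX hf 𝒰 h𝒰.1 H hH hc ?_ ?_
  · exact coverable_of_coverStat 𝒰 h𝒰.1 H hH hc
      (coverStat_of_countablyMetacompact hX hf hY _)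
  · intro y hy
    by_cases hP : IsPPoint y
    · exact Or.inl hP
    · right
      by_contra hcon
      exact hHE y hy ⟨hP, hcon⟩

end Pool.Agent.MP_e848aa_gt.Extra.PPointsCountablyMetacompact
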